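import Mathlib

/-!
# Three-plate condensers and Steiner symmetrization: definitions
-/

open MeasureTheory Set Filter Topology
open scoped ENNReal NNReal

namespace Pool.Agent.Lib.MP_da2747_an

/-- `v` is admissible for the condenser with plates `E k` and potentials `δ k`: it is real valued
and continuous on the extended plane `OnePoint ℂ`, Lipschitz in a neighbourhood of every finite
point, and equal to `δ k` on `E k`. -/
def Admissible {n : ℕ} (E : Fin n → Set (OnePoint ℂ)) (δ : Fin n → ℝ)
    (v : OnePoint ℂ → ℝ) : Prop :=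
  Continuous v ∧ LocallyLipschitz (fun w : ℂ => v (w : OnePoint ℂ)) ∧
  ∀ k, ∀ p ∈ E k, v p = δ k

/-- The Dirichlet integral `∬ |∇v|^2 dx dy`, where `|∇v|^2 = v_x^2 + v_y^2` (the partial
derivatives are the values of the real Frechet derivative at `1` and at `i`; they exist almost
everywhere for a locally Lipschitz function). -/
noncomputable def dirichlet (v : OnePoint ℂ → ℝ) : ℝ≥0∞ :=
  ∫⁻ z : ℂ, ENNReal.ofReal
    ((fderiv ℝ (fun w : ℂ => v (w : OnePoint ℂ)) z 1) ^ 2 +
      (fderiv ℝ (fun w : ℂ => v (w : OnePoint ℂ)) z Complex.I) ^ 2)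

/-- The capacity of the condenser with plates `E k` and potentials `δ k`: the infimum of the
Dirichlet integrals of the admissible functions. -/
noncomputable def capacity {n : ℕ} (E : Fin n → Set (OnePoint ℂ)) (δ : Fin n → ℝ) : ℝ≥0∞ :=
  ⨅ v : {v : OnePoint ℂ → ℝ // Admissible E δ v}, dirichlet v.1

/-- The set of real `y` such that `x + i y` lies in `B`; its Lebesgue measure is the linear
measure `m(B ∩ l(x))`. -/
def slice (B : Set (OnePoint ℂ)) (x : ℝ) : Set ℝ :=
  {y : ℝ | (((⟨x, y⟩ : ℂ)) : OnePoint ℂ) ∈ B}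

/-- Steiner symmetrization (with respect to the real axis) of an open subset `B` of the extended
plane: `St B = {x + i y : B ∩ l(x) ≠ ∅, 2 |y| < m(B ∩ l(x))}`. -/
def steinerOpen (B : Set (OnePoint ℂ)) : Set (OnePoint ℂ) :=
  {p | ∃ z : ℂ, p = (z : OnePoint ℂ) ∧ (slice B z.re).Nonempty ∧
    ENNReal.ofReal (2 * |z.im|) < volume (slice B z.re)}

/-- Steiner symmetrization (with respect to the real axis) of a closed set `E`:
`St E = {x + i y : E ∩ l(x) ≠ ∅, 2 |y| ≤ m(E ∩ l(x))}`. -/
def steinerClosed (E : Set (OnePoint ℂ)) : Set (OnePoint ℂ) :=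
  {p | ∃ z : ℂ, p = (z : OnePoint ℂ) ∧ (slice E z.re).Nonempty ∧
    ENNReal.ofReal (2 * |z.im|) ≤ volume (slice E z.re)}

/-- The mirror image of a set in the imaginary axis: the finite points `z` with `-conj z ∈ E`. -/
def mirror (E : Set (OnePoint ℂ)) : Set (OnePoint ℂ) :=
  {p | ∃ z : ℂ, p = (z : OnePoint ℂ) ∧ ((-(starRingEnd ℂ) z : ℂ) : OnePoint ℂ) ∈ E}

/-- The plates of the symmetrized condenser `St C`: the closed symmetrizations of the first two
plates and the complement of the open symmetrization of the complement of the third one. -/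
def steinerPlates (E : Fin 3 → Set (OnePoint ℂ)) : Fin 3 → Set (OnePoint ℂ) :=
  ![steinerClosed (E 0), steinerClosed (E 1), (steinerOpen (E 2)ᶜ)ᶜ]

end Pool.Agent.Lib.MP_da2747_an
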