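import Pool.Agent.Lib.MP_da2747_an.Defs

/-!
# Steiner symmetrization of three-plate condensers: the inequality is false in general

We exhibit a three-plate condenser `C` (plates `E 0`, `E 1`, `E 2` with potentials `1`, `-1`, `0`)
such that `E 0` is a compact subset of the open left half plane, `E 1` is its mirror image in the
imaginary axis, `E 2` is closed (and not symmetric), and `cap C < cap (St C) < ∞`.

Idea of the counterexample (`W = 100000` is a large height):

* `E 0 = {-1} x [0, 2W]`, `E 1 = {1} x [0, 2W]`;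
* `E 2` consists of `∞`, of `|x| ≥ 2`, of the wall `x = 0` with the opening `W < y < 2W`, and of the
  wall `x = 1/2` with the opening `0 < y < W`.

The wall `x = 0` costs nothing as long as the other wall is open, and the pair of walls costs more
than a single wall.  In `C` every horizontal line `0 < y < 2W` meets exactly one wall.  After
symmetrization both openings are `|y| < W / 2`, so that the lines with `W / 2 < |y| < W` meet both
walls.  Up to edge effects of bounded energy, `cap C` is `(4 + 14/3) W` and `cap (St C)` is at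
least `(4 + 5) W`.
-/

open MeasureTheory Set Filter Topology
open scoped ENNReal NNReal

namespace Pool.Agent.Lib.MP_da2747_an

/-! ### One dimensional lower bound -/

lemma one_dim_lower {f : ℝ → ℝ} {p q : ℝ} (hpq : p < q) {K : ℝ≥0}
    (hf : LipschitzOnWith K f (Icc p q)) :
    ENNReal.ofReal ((f q - f p) ^ 2 / (q - p)) ≤
      ∫⁻ x in Ioo p q, ENNReal.ofReal ((deriv f x) ^ 2) := by
  have huIcc : uIcc p q = Icc p q := uIcc_of_le hpq.le
  have hAC : AbsolutelyContinuousOnInterval f p q := by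
    apply LipschitzOnWith.absolutelyContinuousOnInterval (K := K)
    rwa [huIcc]
  have hFTC := hAC.integral_deriv_eq_sub
  have hint := hAC.intervalIntegrable_deriv
  set s : ℝ := (f q - f p) / (q - p) with hs
  have hqp : 0 < q - p := sub_pos.mpr hpq
  have hint' : IntegrableOn (fun x => 2 * s * deriv f x - s ^ 2) (Ioo p q) := by
    rw [intervalIntegrable_iff_integrableOn_Ioo_of_le hpq.le] at hint
    exact (hint.const_mul (2 * s)).sub (integrableOn_const (by simp))
  have hval : ∫ x in Ioo p q, (2 * s * deriv f x - s ^ 2) = (f q - f p) ^ 2 / (q - p) := by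
    rw [← integral_Ioc_eq_integral_Ioo, ← intervalIntegral.integral_of_le hpq.le,
      intervalIntegral.integral_sub (hint.const_mul _) (by simp),
      intervalIntegral.integral_const_mul, hFTC, intervalIntegral.integral_const, hs]
    simp only [smul_eq_mul]
    field_simp
    ring
  rw [← hval]
  calc ENNReal.ofReal (∫ x in Ioo p q, (2 * s * deriv f x - s ^ 2))
      ≤ ∫⁻ x in Ioo p q, ENNReal.ofReal (2 * s * deriv f x - s ^ 2) := by
        rw [integral_eq_lintegral_pos_part_sub_lintegral_neg_part hint']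
        refine le_trans (ENNReal.ofReal_le_ofReal (sub_le_self _ ENNReal.toReal_nonneg)) ?_
        exact ENNReal.ofReal_toReal_le
    _ ≤ ∫⁻ x in Ioo p q, ENNReal.ofReal ((deriv f x) ^ 2) := by
        apply lintegral_mono
        intro x
        apply ENNReal.ofReal_le_ofReal
        nlinarith [sq_nonneg (deriv f x - s)]

lemma ae_differentiable {F : ℂ → ℝ} (hF : LocallyLipschitz F) :
    ∀ᵐ z : ℂ, DifferentiableAt ℝ F z := by
  have h : ∀ n : ℕ, ∀ᵐ z : ℂ, z ∈ Metric.ball (0 : ℂ) n → DifferentiableAt ℝ F z := by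
    intro n
    obtain ⟨K, hK⟩ := LocallyLipschitzOn.exists_lipschitzOnWith_of_compact
      (isCompact_closedBall (0 : ℂ) n) (hF.locallyLipschitzOn (s := Metric.closedBall (0 : ℂ) n))
    filter_upwards [hK.ae_differentiableWithinAt_of_mem] with z hz hzb
    exact (hz (Metric.ball_subset_closedBall hzb)).differentiableAt
      (Filter.mem_of_superset (Metric.isOpen_ball.mem_nhds hzb) Metric.ball_subset_closedBall)
  rw [← ae_all_iff] at h
  filter_upwards [h] with z hz
  obtain ⟨n, hn⟩ := exists_nat_gt ‖z‖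
  exact hz n (by simpa using hn)

/-- energy density -/
noncomputable def dens (F : ℂ → ℝ) (z : ℂ) : ℝ :=
  (fderiv ℝ F z 1) ^ 2 + (fderiv ℝ F z Complex.I) ^ 2

lemma measurable_dens (F : ℂ → ℝ) : Measurable (dens F) := by
  unfold dens
  exact ((measurable_fderiv_apply_const ℝ F 1).pow_const 2).add
    ((measurable_fderiv_apply_const ℝ F Complex.I).pow_const 2)

lemma lintegral_complex (g : ℂ → ℝ≥0∞) (hg : Measurable g) :
    ∫⁻ z, g z = ∫⁻ y : ℝ, ∫⁻ x : ℝ, g ⟨x, y⟩ := by
  have h1 := (Complex.volume_preserving_equiv_real_prod.symm).lintegral_comp_emb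
    (Complex.measurableEquivRealProd.symm.measurableEmbedding) g
  rw [← h1]
  rw [Measure.volume_eq_prod]
  exact lintegral_prod_symm' (fun a => g (Complex.measurableEquivRealProd.symm a))
    (hg.comp Complex.measurableEquivRealProd.symm.measurable)

lemma ae_complex {P : ℂ → Prop} (h : ∀ᵐ z : ℂ, P z) :
    ∀ᵐ y : ℝ, ∀ᵐ x : ℝ, P ⟨x, y⟩ := by
  have h1 : ∀ᵐ p : ℝ × ℝ, P (Complex.measurableEquivRealProd.symm p) :=
    (Complex.volume_preserving_equiv_real_prod.symm).quasiMeasurePreserving.ae h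
  have h2 : ∀ᵐ p : ℝ × ℝ ∂((volume : Measure ℝ).prod (volume : Measure ℝ)),
      P (Complex.measurableEquivRealProd.symm p) := by
    rwa [← Measure.volume_eq_prod]
  have h3 : ∀ᵐ p : ℝ × ℝ ∂((volume : Measure ℝ).prod (volume : Measure ℝ)),
      P (Complex.measurableEquivRealProd.symm p.swap) := by
    have := (Measure.measurePreserving_swap (μ := (volume : Measure ℝ))
      (ν := (volume : Measure ℝ))).quasiMeasurePreserving.ae h2
    exact this
  have h4 := Measure.ae_ae_of_ae_prod h3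
  exact h4

lemma hasFDerivAt_line {F : ℂ → ℝ} {x y : ℝ} (h : DifferentiableAt ℝ F ⟨x, y⟩) :
    HasDerivAt (fun t : ℝ => F ⟨t, y⟩) (fderiv ℝ F ⟨x, y⟩ 1) x := by
  have h1 : HasDerivAt (fun t : ℝ => ((⟨t, y⟩ : ℂ))) (1 : ℂ) x := by
    have : (fun t : ℝ => ((⟨t, y⟩ : ℂ))) = fun t : ℝ => (t : ℂ) + y * Complex.I := by
      funext t
      apply Complex.ext <;> simp
    rw [this]
    have h2 : HasDerivAt (fun t : ℝ => (t : ℂ)) 1 x := by
      exact Complex.ofRealCLM.hasDerivAt
    exact h2.add_const _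
  exact h.hasFDerivAt.comp_hasDerivAt x h1

lemma line_lower {F : ℂ → ℝ} (hF : LocallyLipschitz F) :
    ∀ᵐ y : ℝ, ∀ p q : ℝ, p < q →
      ENNReal.ofReal ((F ⟨q, y⟩ - F ⟨p, y⟩) ^ 2 / (q - p)) ≤
        ∫⁻ x in Ioo p q, ENNReal.ofReal (dens F ⟨x, y⟩) := by
  filter_upwards [ae_complex (ae_differentiable hF)] with y hy p q hpq
  obtain ⟨K, hK⟩ := LocallyLipschitzOn.exists_lipschitzOnWith_of_compact
    ((isCompact_Icc (a := p) (b := q)).reProdIm (isCompact_singleton (x := y)))
    (hF.locallyLipschitzOn (s := Icc p q ×ℂ {y}))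
  have hL : LipschitzOnWith K (fun t : ℝ => F ⟨t, y⟩) (Icc p q) := by
    intro a ha b hb
    have := hK (x := ⟨a, y⟩) (by simpa [Complex.mem_reProdIm] using ha) (y := ⟨b, y⟩)
      (by simpa [Complex.mem_reProdIm] using hb)
    refine this.trans ?_
    gcongr
    rw [edist_dist, edist_dist, Complex.dist_eq, Real.dist_eq]
    apply ENNReal.ofReal_le_ofReal
    have : ((⟨a, y⟩ : ℂ) - ⟨b, y⟩) = ((a - b : ℝ) : ℂ) := by
      apply Complex.ext <;> simp
    rw [this, Complex.norm_real, Real.norm_eq_abs]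
  refine (one_dim_lower hpq hL).trans ?_
  apply lintegral_mono_ae
  filter_upwards [ae_restrict_of_ae hy] with x hx
  apply ENNReal.ofReal_le_ofReal
  rw [(hasFDerivAt_line hx).deriv]
  unfold dens
  nlinarith [sq_nonneg (fderiv ℝ F ⟨x, y⟩ Complex.I)]


/-! ### The configuration -/

/-- the height of the openings -/
noncomputable def W : ℝ := 100000

/-- plane part of the plate with potential 1 -/
def P1 : Set ℂ := {z | z.re = -1 ∧ 0 ≤ z.im ∧ z.im ≤ 2 * W}

/-- plane part of the plate with potential -1 -/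
def P2 : Set ℂ := {z | z.re = 1 ∧ 0 ≤ z.im ∧ z.im ≤ 2 * W}

/-- complement of the plate with potential 0 -/
def D3 : Set ℂ := {z | |z.re| < 2 ∧ (z.re = 0 → W < z.im ∧ z.im < 2 * W) ∧
  (z.re = 1 / 2 → 0 < z.im ∧ z.im < W)}

/-- the condenser -/
def plates : Fin 3 → Set (OnePoint ℂ) :=
  ![OnePoint.some '' P1, OnePoint.some '' P2, (OnePoint.some '' D3)ᶜ]

/-- symmetrization of `P1` -/
def Q1 : Set ℂ := {z | z.re = -1 ∧ |z.im| ≤ W}
/-- symmetrization of `P2` -/
def Q2 : Set ℂ := {z | z.re = 1 ∧ |z.im| ≤ W}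
/-- symmetrization of `D3` -/
def G3 : Set ℂ := {z | |z.re| < 2 ∧ (z.re = 0 → 2 * |z.im| < W) ∧
  (z.re = 1 / 2 → 2 * |z.im| < W)}

lemma W_pos : 0 < W := by norm_num [W]

lemma mem_slice_some (S : Set ℂ) (x y : ℝ) :
    y ∈ slice (OnePoint.some '' S) x ↔ (⟨x, y⟩ : ℂ) ∈ S := by
  simp [slice]

lemma steinerClosed_P1 : steinerClosed (OnePoint.some '' P1) = OnePoint.some '' Q1 := by
  ext p
  simp only [steinerClosed, mem_ofPred_eq, mem_image]
  constructor
  · rintro ⟨z, rfl, ⟨y, hy⟩, h⟩
    rw [mem_slice_some] at hy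
    have hx : z.re = -1 := hy.1
    refine ⟨z, ⟨hx, ?_⟩, rfl⟩
    have hs : slice (OnePoint.some '' P1) z.re = Icc 0 (2 * W) := by
      ext t
      rw [mem_slice_some]
      simp [P1, hx]
    rw [hs, Real.volume_Icc, ENNReal.ofReal_le_ofReal_iff (by have := W_pos; linarith)] at h
    linarith
  · rintro ⟨z, ⟨hx, hy⟩, rfl⟩
    have hs : slice (OnePoint.some '' P1) z.re = Icc 0 (2 * W) := by
      ext t
      rw [mem_slice_some]
      simp [P1, hx]
    refine ⟨z, rfl, ?_, ?_⟩
    · rw [hs]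
      exact ⟨0, by have := W_pos; constructor <;> linarith⟩
    · rw [hs, Real.volume_Icc]
      apply ENNReal.ofReal_le_ofReal
      linarith

lemma steinerClosed_P2 : steinerClosed (OnePoint.some '' P2) = OnePoint.some '' Q2 := by
  ext p
  simp only [steinerClosed, mem_ofPred_eq, mem_image]
  constructor
  · rintro ⟨z, rfl, ⟨y, hy⟩, h⟩
    rw [mem_slice_some] at hy
    have hx : z.re = 1 := hy.1
    refine ⟨z, ⟨hx, ?_⟩, rfl⟩
    have hs : slice (OnePoint.some '' P2) z.re = Icc 0 (2 * W) := by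
      ext t
      rw [mem_slice_some]
      simp [P2, hx]
    rw [hs, Real.volume_Icc, ENNReal.ofReal_le_ofReal_iff (by have := W_pos; linarith)] at h
    linarith
  · rintro ⟨z, ⟨hx, hy⟩, rfl⟩
    have hs : slice (OnePoint.some '' P2) z.re = Icc 0 (2 * W) := by
      ext t
      rw [mem_slice_some]
      simp [P2, hx]
    refine ⟨z, rfl, ?_, ?_⟩
    · rw [hs]
      exact ⟨0, by have := W_pos; constructor <;> linarith⟩
    · rw [hs, Real.volume_Icc]
      apply ENNReal.ofReal_le_ofReal
      linarith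

lemma steinerOpen_D3 : steinerOpen (OnePoint.some '' D3) = OnePoint.some '' G3 := by
  have hW := W_pos
  ext p
  simp only [steinerOpen, mem_ofPred_eq, mem_image]
  constructor
  · rintro ⟨z, rfl, ⟨y, hy⟩, h⟩
    rw [mem_slice_some] at hy
    have hx : |z.re| < 2 := hy.1
    refine ⟨z, ⟨hx, ?_, ?_⟩, rfl⟩
    · intro h0
      have hs : slice (OnePoint.some '' D3) z.re = Ioo W (2 * W) := by
        ext t
        rw [mem_slice_some]
        simp [D3, h0]
      rw [hs, Real.volume_Ioo, ENNReal.ofReal_lt_ofReal_iff (by linarith)] at h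
      linarith
    · intro h0
      have hs : slice (OnePoint.some '' D3) z.re = Ioo 0 W := by
        ext t
        rw [mem_slice_some]
        simp only [D3, h0, mem_ofPred_eq, mem_Ioo]
        constructor
        · rintro ⟨-, -, h⟩
          exact h trivial
        · intro h
          exact ⟨by rw [abs_of_pos] <;> norm_num, fun h' => by norm_num at h', fun _ => h⟩
      rw [hs, Real.volume_Ioo, ENNReal.ofReal_lt_ofReal_iff (by linarith)] at h
      linarith
  · rintro ⟨z, ⟨hx, h0, h1⟩, rfl⟩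
    refine ⟨z, rfl, ?_⟩
    by_cases hz0 : z.re = 0
    · have hs : slice (OnePoint.some '' D3) z.re = Ioo W (2 * W) := by
        ext t
        rw [mem_slice_some]
        simp [D3, hz0]
      rw [hs, Real.volume_Ioo]
      refine ⟨⟨3 / 2 * W, by constructor <;> linarith⟩, ?_⟩
      rw [ENNReal.ofReal_lt_ofReal_iff (by linarith)]
      have := h0 hz0
      linarith
    · by_cases hz1 : z.re = 1 / 2
      · have hs : slice (OnePoint.some '' D3) z.re = Ioo 0 W := by
          ext t
          rw [mem_slice_some]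
          simp only [D3, hz1, mem_ofPred_eq, mem_Ioo]
          constructor
          · rintro ⟨-, -, h⟩
            exact h trivial
          · intro h
            exact ⟨by rw [abs_of_pos] <;> norm_num, fun h' => by norm_num at h', fun _ => h⟩
        rw [hs, Real.volume_Ioo]
        refine ⟨⟨1 / 2 * W, by constructor <;> linarith⟩, ?_⟩
        rw [ENNReal.ofReal_lt_ofReal_iff (by linarith)]
        have := h1 hz1
        linarith
      · have hs : slice (OnePoint.some '' D3) z.re = univ := by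
          ext t
          rw [mem_slice_some]
          simp [D3, hz0, hx]
          intro h
          exact absurd (by rw [h]; norm_num) hz1
        rw [hs]
        exact ⟨univ_nonempty, by rw [Real.volume_univ]; exact ENNReal.ofReal_lt_top⟩

lemma steinerPlates_plates :
    steinerPlates plates = ![OnePoint.some '' Q1, OnePoint.some '' Q2, (OnePoint.some '' G3)ᶜ] := by
  simp only [steinerPlates, plates, Matrix.cons_val_zero, Matrix.cons_val_one, Matrix.cons_val,
    compl_compl]
  rw [steinerClosed_P1, steinerClosed_P2, steinerOpen_D3]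


/-! ### Lower bound for the symmetrized condenser -/

lemma lower_bound (v : OnePoint ℂ → ℝ)
    (hv : Admissible (steinerPlates plates) ![1, -1, 0] v) :
    ENNReal.ofReal (9 * W) ≤ dirichlet v := by
  have hW := W_pos
  obtain ⟨-, hLip, hE⟩ := hv
  rw [steinerPlates_plates] at hE
  set F : ℂ → ℝ := fun w => v (w : OnePoint ℂ) with hF
  have hE0 : ∀ z : ℂ, z ∈ Q1 → F z = 1 := fun z hz => by
    simpa using hE 0 (z : OnePoint ℂ) ⟨z, hz, rfl⟩
  have hE1 : ∀ z : ℂ, z ∈ Q2 → F z = -1 := fun z hz => by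
    simpa using hE 1 (z : OnePoint ℂ) ⟨z, hz, rfl⟩
  have hE2 : ∀ z : ℂ, z ∉ G3 → F z = 0 := fun z hz => by
    have h := hE 2 (z : OnePoint ℂ)
    simp only [Matrix.cons_val] at h
    apply h
    rintro ⟨z', hz', he⟩
    rw [OnePoint.coe_injective he] at hz'
    exact hz hz'
  have hdir : dirichlet v = ∫⁻ y : ℝ, ∫⁻ x : ℝ, ENNReal.ofReal (dens F ⟨x, y⟩) := by
    rw [← lintegral_complex (fun z => ENNReal.ofReal (dens F z))
      (measurable_dens F).ennreal_ofReal]
    rfl
  rw [hdir]
  -- inner bounds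
  have hm2 : ∀ y : ℝ, F ⟨-2, y⟩ = 0 := fun y => hE2 _ (by
    intro h; have := h.1; simp at this)
  have hp2 : ∀ y : ℝ, F ⟨2, y⟩ = 0 := fun y => hE2 _ (by
    intro h; have := h.1; simp at this)
  have hm1 : ∀ y : ℝ, |y| ≤ W → F ⟨-1, y⟩ = 1 := fun y hy => hE0 _ ⟨rfl, hy⟩
  have hp1 : ∀ y : ℝ, |y| ≤ W → F ⟨1, y⟩ = -1 := fun y hy => hE1 _ ⟨rfl, hy⟩
  have h00 : ∀ y : ℝ, W ≤ 2 * |y| → F ⟨0, y⟩ = 0 := fun y hy => hE2 _ (by
    intro h; have := h.2.1 rfl; simp at this; linarith)
  have h12 : ∀ y : ℝ, W ≤ 2 * |y| → F ⟨1 / 2, y⟩ = 0 := fun y hy => hE2 _ (by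
    intro h; have := h.2.2 rfl; simp at this; linarith)
  have hline := line_lower hLip
  have hin1 : ∀ᵐ y : ℝ, |y| ≤ W → (4 : ℝ≥0∞) ≤ ∫⁻ x : ℝ, ENNReal.ofReal (dens F ⟨x, y⟩) := by
    filter_upwards [hline] with y hy hyW
    have a1 := hy (-2) (-1) (by norm_num)
    have a2 := hy (-1) 1 (by norm_num)
    have a3 := hy 1 2 (by norm_num)
    rw [hm2 y, hm1 y hyW] at a1
    rw [hm1 y hyW, hp1 y hyW] at a2
    rw [hp2 y, hp1 y hyW] at a3
    have hd1 : Disjoint (Ioo (-2 : ℝ) (-1)) (Ioo (-1 : ℝ) 1) := by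
      rw [Set.disjoint_left]; rintro x ⟨_, h1⟩ ⟨h2, _⟩; linarith
    have hd2 : Disjoint (Ioo (-2 : ℝ) (-1) ∪ Ioo (-1 : ℝ) 1) (Ioo (1 : ℝ) 2) := by
      rw [Set.disjoint_left]; rintro x (⟨_, h1⟩ | ⟨_, h1⟩) ⟨h2, _⟩ <;> linarith
    calc (4 : ℝ≥0∞) = ENNReal.ofReal ((1 - 0) ^ 2 / (-1 - -2)) +
          ENNReal.ofReal ((-1 - 1) ^ 2 / (1 - -1)) + ENNReal.ofReal ((0 - -1) ^ 2 / (2 - 1)) := by
          rw [← ENNReal.ofReal_add (by norm_num) (by norm_num),
            ← ENNReal.ofReal_add (by norm_num) (by norm_num)]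
          norm_num
      _ ≤ _ := add_le_add (add_le_add a1 a2) a3
      _ = ∫⁻ x in (Ioo (-2 : ℝ) (-1) ∪ Ioo (-1 : ℝ) 1) ∪ Ioo (1 : ℝ) 2,
            ENNReal.ofReal (dens F ⟨x, y⟩) := by
          rw [lintegral_union measurableSet_Ioo hd2, lintegral_union measurableSet_Ioo hd1]
      _ ≤ _ := setLIntegral_le_lintegral _ _
  have hin2 : ∀ᵐ y : ℝ, |y| ≤ W → W ≤ 2 * |y| →
      (5 : ℝ≥0∞) ≤ ∫⁻ x : ℝ, ENNReal.ofReal (dens F ⟨x, y⟩) := by
    filter_upwards [hline] with y hy hyW hyW2
    have a1 := hy (-2) (-1) (by norm_num)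
    have a2 := hy (-1) 0 (by norm_num)
    have a3 := hy (1 / 2) 1 (by norm_num)
    have a4 := hy 1 2 (by norm_num)
    rw [hm2 y, hm1 y hyW] at a1
    rw [hm1 y hyW, h00 y hyW2] at a2
    rw [hp1 y hyW, h12 y hyW2] at a3
    rw [hp2 y, hp1 y hyW] at a4
    have hd1 : Disjoint (Ioo (-2 : ℝ) (-1)) (Ioo (-1 : ℝ) 0) := by
      rw [Set.disjoint_left]; rintro x ⟨_, h1⟩ ⟨h2, _⟩; linarith
    have hd2 : Disjoint (Ioo (-2 : ℝ) (-1) ∪ Ioo (-1 : ℝ) 0) (Ioo (1 / 2 : ℝ) 1) := by
      rw [Set.disjoint_left]; rintro x (⟨_, h1⟩ | ⟨_, h1⟩) ⟨h2, _⟩ <;> linarith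
    have hd3 : Disjoint ((Ioo (-2 : ℝ) (-1) ∪ Ioo (-1 : ℝ) 0) ∪ Ioo (1 / 2 : ℝ) 1)
        (Ioo (1 : ℝ) 2) := by
      rw [Set.disjoint_left]; rintro x ((⟨_, h1⟩ | ⟨_, h1⟩) | ⟨_, h1⟩) ⟨h2, _⟩ <;> linarith
    calc (5 : ℝ≥0∞) = ENNReal.ofReal ((1 - 0) ^ 2 / (-1 - -2)) +
          ENNReal.ofReal ((0 - 1) ^ 2 / (0 - -1)) + ENNReal.ofReal ((-1 - 0) ^ 2 / (1 - 1 / 2)) +
          ENNReal.ofReal ((0 - -1) ^ 2 / (2 - 1)) := by
          rw [← ENNReal.ofReal_add (by norm_num) (by norm_num),
            ← ENNReal.ofReal_add (by norm_num) (by norm_num),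
            ← ENNReal.ofReal_add (by norm_num) (by norm_num)]
          norm_num
      _ ≤ _ := add_le_add (add_le_add (add_le_add a1 a2) a3) a4
      _ = ∫⁻ x in ((Ioo (-2 : ℝ) (-1) ∪ Ioo (-1 : ℝ) 0) ∪ Ioo (1 / 2 : ℝ) 1) ∪ Ioo (1 : ℝ) 2,
            ENNReal.ofReal (dens F ⟨x, y⟩) := by
          rw [lintegral_union measurableSet_Ioo hd3, lintegral_union measurableSet_Ioo hd2,
            lintegral_union measurableSet_Ioo hd1]
      _ ≤ _ := setLIntegral_le_lintegral _ _
  set J : ℝ → ℝ≥0∞ := fun y => ∫⁻ x : ℝ, ENNReal.ofReal (dens F ⟨x, y⟩) with hJ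
  have b1 : ENNReal.ofReal (5 * (W / 2)) ≤ ∫⁻ y in Ioo (-W) (-W / 2), J y := by
    calc ENNReal.ofReal (5 * (W / 2)) = ∫⁻ y in Ioo (-W) (-W / 2), (5 : ℝ≥0∞) := by
          rw [setLIntegral_const, Real.volume_Ioo,
            show (5 : ℝ≥0∞) = ENNReal.ofReal 5 by norm_num, ← ENNReal.ofReal_mul (by norm_num)]
          congr 1; ring
      _ ≤ _ := by
          apply setLIntegral_mono_ae' measurableSet_Ioo
          filter_upwards [hin2] with y hy hy2
          have h1 : |y| = -y := abs_of_neg (by linarith [hy2.2])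
          exact hy (by rw [h1]; linarith [hy2.1]) (by rw [h1]; linarith [hy2.2])
  have b2 : ENNReal.ofReal (4 * W) ≤ ∫⁻ y in Ioo (-W / 2) (W / 2), J y := by
    calc ENNReal.ofReal (4 * W) = ∫⁻ y in Ioo (-W / 2) (W / 2), (4 : ℝ≥0∞) := by
          rw [setLIntegral_const, Real.volume_Ioo,
            show (4 : ℝ≥0∞) = ENNReal.ofReal 4 by norm_num, ← ENNReal.ofReal_mul (by norm_num)]
          congr 1; ring
      _ ≤ _ := by
          apply setLIntegral_mono_ae' measurableSet_Ioo
          filter_upwards [hin1] with y hy hy2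
          exact hy (by rw [abs_le]; constructor <;> linarith [hy2.1, hy2.2])
  have b3 : ENNReal.ofReal (5 * (W / 2)) ≤ ∫⁻ y in Ioo (W / 2) W, J y := by
    calc ENNReal.ofReal (5 * (W / 2)) = ∫⁻ y in Ioo (W / 2) W, (5 : ℝ≥0∞) := by
          rw [setLIntegral_const, Real.volume_Ioo,
            show (5 : ℝ≥0∞) = ENNReal.ofReal 5 by norm_num, ← ENNReal.ofReal_mul (by norm_num)]
          congr 1; ring
      _ ≤ _ := by
          apply setLIntegral_mono_ae' measurableSet_Ioo
          filter_upwards [hin2] with y hy hy2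
          have h1 : |y| = y := abs_of_pos (by linarith [hy2.1])
          exact hy (by rw [h1]; linarith [hy2.2]) (by rw [h1]; linarith [hy2.1])
  have hd1 : Disjoint (Ioo (-W) (-W / 2)) (Ioo (-W / 2) (W / 2)) := by
    rw [Set.disjoint_left]; rintro x ⟨_, h1⟩ ⟨h2, _⟩; linarith
  have hd2 : Disjoint (Ioo (-W) (-W / 2) ∪ Ioo (-W / 2) (W / 2)) (Ioo (W / 2) W) := by
    rw [Set.disjoint_left]; rintro x (⟨_, h1⟩ | ⟨_, h1⟩) ⟨h2, _⟩ <;> linarith
  calc ENNReal.ofReal (9 * W) = ENNReal.ofReal (5 * (W / 2)) + ENNReal.ofReal (4 * W) +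
        ENNReal.ofReal (5 * (W / 2)) := by
        rw [← ENNReal.ofReal_add (by positivity) (by positivity),
            ← ENNReal.ofReal_add (by positivity) (by positivity)]
        congr 1; ring
    _ ≤ _ := add_le_add (add_le_add b1 b2) b3
    _ = ∫⁻ y in (Ioo (-W) (-W / 2) ∪ Ioo (-W / 2) (W / 2)) ∪ Ioo (W / 2) W, J y := by
        rw [lintegral_union measurableSet_Ioo hd2, lintegral_union measurableSet_Ioo hd1]
    _ ≤ _ := setLIntegral_le_lintegral _ _


/-! ### Test functions: generalities -/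

/-- extension of a function on the plane by the value `0` at infinity -/
def ext0 (F : ℂ → ℝ) : OnePoint ℂ → ℝ := fun p => p.elim 0 F

lemma ext0_coe (F : ℂ → ℝ) (z : ℂ) : ext0 F (z : OnePoint ℂ) = F z := rfl

lemma ext0_infty (F : ℂ → ℝ) : ext0 F (OnePoint.infty) = 0 := rfl

lemma ext0_continuous {F : ℂ → ℝ} (hF : Continuous F) {R : ℝ}
    (hR : ∀ z : ℂ, R < ‖z‖ → F z = 0) : Continuous (ext0 F) := by
  rw [OnePoint.continuous_iff]
  refine ⟨?_, hF⟩
  rw [Filter.coclosedCompact_eq_cocompact]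
  apply tendsto_nhds_of_eventually_eq
  rw [← Metric.cobounded_eq_cocompact]
  filter_upwards [tendsto_norm_cobounded_atTop.eventually_gt_atTop R] with z hz
  exact hR z hz

/-- bounded by `M` and `K`-Lipschitz -/
def BL (M K : ℝ) (f : ℂ → ℝ) : Prop :=
  (∀ z, |f z| ≤ M) ∧ ∀ z w, |f z - f w| ≤ K * ‖z - w‖

lemma BL.mul {M K M' K' : ℝ} {f g : ℂ → ℝ} (hf : BL M K f) (hg : BL M' K' g)
    (hM : 0 ≤ M) (hM' : 0 ≤ M') :
    BL (M * M') (M * K' + M' * K) (fun z => f z * g z) := by
  refine ⟨fun z => ?_, fun z w => ?_⟩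
  · rw [abs_mul]
    exact mul_le_mul (hf.1 z) (hg.1 z) (abs_nonneg _) hM
  · have h : f z * g z - f w * g w = f z * (g z - g w) + g w * (f z - f w) := by ring
    rw [h]
    calc |f z * (g z - g w) + g w * (f z - f w)|
        ≤ |f z * (g z - g w)| + |g w * (f z - f w)| := abs_add_le _ _
      _ = |f z| * |g z - g w| + |g w| * |f z - f w| := by rw [abs_mul, abs_mul]
      _ ≤ M * (K' * ‖z - w‖) + M' * (K * ‖z - w‖) := by
          apply add_le_add
          · exact mul_le_mul (hf.1 z) (hg.2 z w) (abs_nonneg _) hM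
          · exact mul_le_mul (hg.1 w) (hf.2 z w) (abs_nonneg _) hM'
      _ = _ := by ring

lemma BL.add {M K M' K' : ℝ} {f g : ℂ → ℝ} (hf : BL M K f) (hg : BL M' K' g) :
    BL (M + M') (K + K') (fun z => f z + g z) := by
  refine ⟨fun z => (abs_add_le _ _).trans (add_le_add (hf.1 z) (hg.1 z)), fun z w => ?_⟩
  have h : f z + g z - (f w + g w) = (f z - f w) + (g z - g w) := by ring
  rw [h, add_mul]
  exact (abs_add_le _ _).trans (add_le_add (hf.2 z w) (hg.2 z w))

lemma BL.sub {M K M' K' : ℝ} {f g : ℂ → ℝ} (hf : BL M K f) (hg : BL M' K' g) :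
    BL (M + M') (K + K') (fun z => f z - g z) := by
  refine ⟨fun z => (abs_sub _ _).trans (add_le_add (hf.1 z) (hg.1 z)), fun z w => ?_⟩
  have h : f z - g z - (f w - g w) = (f z - f w) - (g z - g w) := by ring
  rw [h, add_mul]
  exact (abs_sub _ _).trans (add_le_add (hf.2 z w) (hg.2 z w))

lemma BL.lipschitz {M : ℝ} {K : ℝ≥0} {f : ℂ → ℝ} (hf : BL M K f) : LipschitzWith K f := by
  apply LipschitzWith.of_dist_le_mul
  intro z w
  rw [Real.dist_eq, Complex.dist_eq]
  exact hf.2 z w

lemma clip {a b a' b' δ : ℝ} (ha : |a - a'| ≤ δ) (hb : |b - b'| ≤ δ) :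
    |max 0 (min a b) - max 0 (min a' b')| ≤ δ := by
  have h1 : |min a b - min a' b'| ≤ δ := (abs_min_sub_min_le_max _ _ _ _).trans (max_le ha hb)
  have hδ : 0 ≤ δ := (abs_nonneg _).trans ha
  exact (abs_max_sub_max_le_max _ _ _ _).trans (max_le (by simpa using hδ) h1)

lemma BL_re {M K : ℝ} {g : ℝ → ℝ} (hM : ∀ x, |g x| ≤ M) (hK : ∀ x y, |g x - g y| ≤ K * |x - y|)
    (hK0 : 0 ≤ K) : BL M K (fun z => g z.re) := by
  refine ⟨fun z => hM _, fun z w => (hK _ _).trans ?_⟩
  gcongr
  rw [← Complex.sub_re]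
  exact Complex.abs_re_le_norm _

lemma BL_im {M K : ℝ} {g : ℝ → ℝ} (hM : ∀ x, |g x| ≤ M) (hK : ∀ x y, |g x - g y| ≤ K * |x - y|)
    (hK0 : 0 ≤ K) : BL M K (fun z => g z.im) := by
  refine ⟨fun z => hM _, fun z w => (hK _ _).trans ?_⟩
  gcongr
  rw [← Complex.sub_im]
  exact Complex.abs_im_le_norm _

lemma dens_le_of_lipschitz {F : ℂ → ℝ} {K : ℝ≥0} (hF : LipschitzWith K F) (z : ℂ) :
    dens F z ≤ (K : ℝ) ^ 2 := by
  set L := fderiv ℝ F z with hL
  have hn : ‖L‖ ≤ K := norm_fderiv_le_of_lipschitz ℝ hF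
  have h1 : L ((L 1 : ℂ) + (L Complex.I : ℂ) * Complex.I) = (L 1) ^ 2 + (L Complex.I) ^ 2 := by
    have e1 : ((L 1 : ℝ) : ℂ) = (L 1) • (1 : ℂ) := by simp
    have e2 : ((L Complex.I : ℝ) : ℂ) * Complex.I = (L Complex.I) • Complex.I := by simp
    rw [e1, e2, map_add, map_smul, map_smul]
    simp only [smul_eq_mul]
    ring
  have h2 : ‖((L 1 : ℂ) + (L Complex.I : ℂ) * Complex.I)‖ ^ 2 = (L 1) ^ 2 + (L Complex.I) ^ 2 := by
    rw [← Complex.normSq_eq_norm_sq, Complex.normSq_add_mul_I]
  have h3 := L.le_opNorm ((L 1 : ℂ) + (L Complex.I : ℂ) * Complex.I)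
  rw [h1] at h3
  set N := ‖((L 1 : ℂ) + (L Complex.I : ℂ) * Complex.I)‖ with hN
  have hN0 : 0 ≤ N := norm_nonneg _
  have hden : dens F z = N ^ 2 := by rw [h2]; rfl
  rw [hden]
  have h4 : N ^ 2 ≤ K * N := by
    rw [h2]
    refine (le_abs_self _).trans (h3.trans ?_)
    gcongr
  have hK0 : (0 : ℝ) ≤ K := K.2
  nlinarith [sq_nonneg (N - K)]

lemma dens_affine {F : ℂ → ℝ} {z : ℂ} {s c : ℝ}
    (h : F =ᶠ[𝓝 z] fun w => s * w.re + c) : dens F z = s ^ 2 := by
  have h1 : HasFDerivAt (fun w : ℂ => s * w.re + c) (s • Complex.reCLM) z := by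
    exact (Complex.reCLM.hasFDerivAt.const_mul s).add_const c
  unfold dens
  rw [h.fderiv_eq, h1.fderiv]
  simp

lemma ae_re_ne (a : ℝ) : ∀ᵐ z : ℂ, z.re ≠ a := by
  have h : ∀ᵐ p : ℝ × ℝ ∂((volume : Measure ℝ).prod (volume : Measure ℝ)), p.1 ≠ a :=
    Measure.quasiMeasurePreserving_fst.ae (Measure.ae_ne volume a)
  rw [← Measure.volume_eq_prod] at h
  exact Complex.volume_preserving_equiv_real_prod.quasiMeasurePreserving.ae h

lemma ae_im_ne (a : ℝ) : ∀ᵐ z : ℂ, z.im ≠ a := by
  have h : ∀ᵐ p : ℝ × ℝ ∂((volume : Measure ℝ).prod (volume : Measure ℝ)), p.2 ≠ a :=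
    Measure.quasiMeasurePreserving_snd.ae (Measure.ae_ne volume a)
  rw [← Measure.volume_eq_prod] at h
  exact Complex.volume_preserving_equiv_real_prod.quasiMeasurePreserving.ae h

lemma volume_rect (a b p q : ℝ) :
    volume (Ioo a b ×ℂ Ioo p q) = ENNReal.ofReal (b - a) * ENNReal.ofReal (q - p) := by
  have h : Ioo a b ×ℂ Ioo p q = Complex.measurableEquivRealProd ⁻¹' (Ioo a b ×ˢ Ioo p q) := by
    ext z
    simp [Complex.mem_reProdIm]
  rw [h, Complex.volume_preserving_equiv_real_prod.measure_preimage_equiv,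
    Measure.volume_eq_prod, Measure.prod_prod, Real.volume_Ioo, Real.volume_Ioo]

lemma measurableSet_rect (a b p q : ℝ) : MeasurableSet (Ioo a b ×ℂ Ioo p q) :=
  (isOpen_Ioo.reProdIm isOpen_Ioo).measurableSet

lemma lintegral_rect {c a b p q : ℝ} (hc : 0 ≤ c) (hab : a ≤ b) :
    ∫⁻ z : ℂ, (Ioo a b ×ℂ Ioo p q).indicator (fun _ => ENNReal.ofReal c) z =
      ENNReal.ofReal (c * ((b - a) * (q - p))) := by
  rw [lintegral_indicator_const (measurableSet_rect a b p q), volume_rect,
    ENNReal.ofReal_mul hc, ENNReal.ofReal_mul (sub_nonneg.mpr hab)]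


/-! ### The profile functions -/

noncomputable def L1 (x : ℝ) : ℝ := max 0 (min (x + 2) (-x))
noncomputable def L2 (x : ℝ) : ℝ := max 0 (min (x + 2) ((1 - 2 * x) / 3))
noncomputable def R1 (x : ℝ) : ℝ := max 0 (min x (2 - x))
noncomputable def R2 (x : ℝ) : ℝ := max 0 (min (2 * x - 1) (2 - x))
noncomputable def psi (y : ℝ) : ℝ := max 0 (min 1 (min (y + 1) (2 * W + 1 - y)))
noncomputable def al (y : ℝ) : ℝ := max 0 (min 1 (min y (W - y)))
noncomputable def be (y : ℝ) : ℝ := max 0 (min 1 (min (y - W) (2 * W - y)))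
noncomputable def psi' (y : ℝ) : ℝ := max 0 (min 1 (min (W + 1 + y) (W + 1 - y)))

lemma clip_bound {a b : ℝ} (h : min a b ≤ 1) : |max 0 (min a b)| ≤ 1 := by
  rw [abs_of_nonneg (le_max_left _ _)]
  exact max_le zero_le_one h

lemma L1_bd (x : ℝ) : |L1 x| ≤ 1 := by
  apply clip_bound
  rcases le_total x (-1) with h | h
  · exact (min_le_left _ _).trans (by linarith)
  · exact (min_le_right _ _).trans (by linarith)

lemma L2_bd (x : ℝ) : |L2 x| ≤ 1 := by
  apply clip_bound
  rcases le_total x (-1) with h | h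
  · exact (min_le_left _ _).trans (by linarith)
  · exact (min_le_right _ _).trans (by linarith)

lemma R1_bd (x : ℝ) : |R1 x| ≤ 1 := by
  apply clip_bound
  rcases le_total x 1 with h | h
  · exact (min_le_left _ _).trans (by linarith)
  · exact (min_le_right _ _).trans (by linarith)

lemma R2_bd (x : ℝ) : |R2 x| ≤ 1 := by
  apply clip_bound
  rcases le_total x 1 with h | h
  · exact (min_le_left _ _).trans (by linarith)
  · exact (min_le_right _ _).trans (by linarith)

lemma psi_bd (x : ℝ) : |psi x| ≤ 1 := clip_bound (min_le_left _ _)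
lemma al_bd (x : ℝ) : |al x| ≤ 1 := clip_bound (min_le_left _ _)
lemma be_bd (x : ℝ) : |be x| ≤ 1 := clip_bound (min_le_left _ _)
lemma psi'_bd (x : ℝ) : |psi' x| ≤ 1 := clip_bound (min_le_left _ _)

lemma abs_mul_le_of {s x y K : ℝ} (h : |s| ≤ K) : |s * (x - y)| ≤ K * |x - y| := by
  rw [abs_mul]
  exact mul_le_mul_of_nonneg_right h (abs_nonneg _)

lemma L1_lip (x y : ℝ) : |L1 x - L1 y| ≤ 1 * |x - y| := by
  apply clip
  · have : x + 2 - (y + 2) = 1 * (x - y) := by ring
    rw [this]; exact abs_mul_le_of (by norm_num)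
  · have : -x - (-y) = (-1) * (x - y) := by ring
    rw [this]; exact abs_mul_le_of (by norm_num)

lemma L2_lip (x y : ℝ) : |L2 x - L2 y| ≤ 1 * |x - y| := by
  apply clip
  · have : x + 2 - (y + 2) = 1 * (x - y) := by ring
    rw [this]; exact abs_mul_le_of (by norm_num)
  · have : (1 - 2 * x) / 3 - (1 - 2 * y) / 3 = (-2 / 3) * (x - y) := by ring
    rw [this]; exact abs_mul_le_of (by rw [abs_le]; constructor <;> norm_num)

lemma R1_lip (x y : ℝ) : |R1 x - R1 y| ≤ 1 * |x - y| := by
  apply clip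
  · exact (one_mul |x - y|).ge
  · have : 2 - x - (2 - y) = (-1) * (x - y) := by ring
    rw [this]; exact abs_mul_le_of (by norm_num)

lemma R2_lip (x y : ℝ) : |R2 x - R2 y| ≤ 2 * |x - y| := by
  apply clip
  · have : 2 * x - 1 - (2 * y - 1) = 2 * (x - y) := by ring
    rw [this]; exact abs_mul_le_of (by norm_num)
  · have : 2 - x - (2 - y) = (-1) * (x - y) := by ring
    rw [this]; exact abs_mul_le_of (by norm_num)

lemma clip3 {a b a' b' δ : ℝ} (ha : |a - a'| ≤ δ) (hb : |b - b'| ≤ δ) :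
    |max 0 (min 1 (min a b)) - max 0 (min 1 (min a' b'))| ≤ δ := by
  apply clip
  · simpa using (abs_nonneg _).trans ha
  · exact (abs_min_sub_min_le_max _ _ _ _).trans (max_le ha hb)

lemma psi_lip (x y : ℝ) : |psi x - psi y| ≤ 1 * |x - y| := by
  apply clip3
  · have : x + 1 - (y + 1) = 1 * (x - y) := by ring
    rw [this]; exact abs_mul_le_of (by norm_num)
  · have : 2 * W + 1 - x - (2 * W + 1 - y) = (-1) * (x - y) := by ring
    rw [this]; exact abs_mul_le_of (by norm_num)

lemma al_lip (x y : ℝ) : |al x - al y| ≤ 1 * |x - y| := by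
  apply clip3
  · exact (one_mul |x - y|).ge
  · have : W - x - (W - y) = (-1) * (x - y) := by ring
    rw [this]; exact abs_mul_le_of (by norm_num)

lemma be_lip (x y : ℝ) : |be x - be y| ≤ 1 * |x - y| := by
  apply clip3
  · have : x - W - (y - W) = 1 * (x - y) := by ring
    rw [this]; exact abs_mul_le_of (by norm_num)
  · have : 2 * W - x - (2 * W - y) = (-1) * (x - y) := by ring
    rw [this]; exact abs_mul_le_of (by norm_num)

lemma psi'_lip (x y : ℝ) : |psi' x - psi' y| ≤ 1 * |x - y| := by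
  apply clip3
  · have : W + 1 + x - (W + 1 + y) = 1 * (x - y) := by ring
    rw [this]; exact abs_mul_le_of (by norm_num)
  · have : W + 1 - x - (W + 1 - y) = (-1) * (x - y) := by ring
    rw [this]; exact abs_mul_le_of (by norm_num)

/-- test function for the original condenser -/
noncomputable def V (z : ℂ) : ℝ :=
  psi z.im * (L1 z.re - R2 z.re) + be z.im * (L2 z.re - L1 z.re) +
    al z.im * (R2 z.re - R1 z.re)

/-- test function for the symmetrized condenser -/
noncomputable def V' (z : ℂ) : ℝ := psi' z.im * (L1 z.re - R2 z.re)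

lemma V_lip : LipschitzWith 14 V := by
  have hL1 : BL 1 1 (fun z : ℂ => L1 z.re) := BL_re L1_bd L1_lip zero_le_one
  have hL2 : BL 1 1 (fun z : ℂ => L2 z.re) := BL_re L2_bd L2_lip zero_le_one
  have hR1 : BL 1 1 (fun z : ℂ => R1 z.re) := BL_re R1_bd R1_lip zero_le_one
  have hR2 : BL 1 2 (fun z : ℂ => R2 z.re) := BL_re R2_bd R2_lip zero_le_two
  have hps : BL 1 1 (fun z : ℂ => psi z.im) := BL_im psi_bd psi_lip zero_le_one
  have hal : BL 1 1 (fun z : ℂ => al z.im) := BL_im al_bd al_lip zero_le_one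
  have hbe : BL 1 1 (fun z : ℂ => be z.im) := BL_im be_bd be_lip zero_le_one
  have h1 := hps.mul (hL1.sub hR2) zero_le_one (by norm_num)
  have h2 := hbe.mul (hL2.sub hL1) zero_le_one (by norm_num)
  have h3 := hal.mul (hR2.sub hR1) zero_le_one (by norm_num)
  have h4 := (h1.add h2).add h3
  have h5 : (1 * (1 + 2) + (1 + 1) * 1 + (1 * (1 + 1) + (1 + 1) * 1) +
      (1 * (2 + 1) + (1 + 1) * 1) : ℝ) = ((14 : ℝ≥0) : ℝ) := by norm_num
  rw [h5] at h4
  exact h4.lipschitz

lemma V'_lip : LipschitzWith 5 V' := by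
  have hL1 : BL 1 1 (fun z : ℂ => L1 z.re) := BL_re L1_bd L1_lip zero_le_one
  have hR2 : BL 1 2 (fun z : ℂ => R2 z.re) := BL_re R2_bd R2_lip zero_le_two
  have hps : BL 1 1 (fun z : ℂ => psi' z.im) := BL_im psi'_bd psi'_lip zero_le_one
  have h1 := hps.mul (hL1.sub hR2) zero_le_one (by norm_num)
  have h5 : (1 * (1 + 2) + (1 + 1) * 1 : ℝ) = ((5 : ℝ≥0) : ℝ) := by norm_num
  rw [h5] at h1
  exact h1.lipschitz

lemma clip_zero_left {a b : ℝ} (h : a ≤ 0) : max 0 (min a b) = 0 :=
  max_eq_left ((min_le_left _ _).trans h)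

lemma clip_zero_right {a b : ℝ} (h : b ≤ 0) : max 0 (min a b) = 0 :=
  max_eq_left ((min_le_right _ _).trans h)

lemma clip_left {a b : ℝ} (h : 0 ≤ a) (h' : a ≤ b) : max 0 (min a b) = a := by
  rw [min_eq_left h', max_eq_right h]

lemma clip_right {a b : ℝ} (h : 0 ≤ b) (h' : b ≤ a) : max 0 (min a b) = b := by
  rw [min_eq_right h', max_eq_right h]

lemma clip3_one {a b : ℝ} (h : 1 ≤ a) (h' : 1 ≤ b) : max 0 (min 1 (min a b)) = 1 := by
  rw [min_eq_left (le_min h h'), max_eq_right zero_le_one]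

lemma clip3_zero_left {a b : ℝ} (h : a ≤ 0) : max 0 (min 1 (min a b)) = 0 :=
  max_eq_left ((min_le_right _ _).trans ((min_le_left _ _).trans h))

lemma clip3_zero_right {a b : ℝ} (h : b ≤ 0) : max 0 (min 1 (min a b)) = 0 :=
  max_eq_left ((min_le_right _ _).trans ((min_le_right _ _).trans h))

lemma V_zero_left {z : ℂ} (h : z.re ≤ -2) : V z = 0 := by
  have h1 : L1 z.re = 0 := clip_zero_left (by linarith)
  have h2 : L2 z.re = 0 := clip_zero_left (by linarith)
  have h3 : R1 z.re = 0 := clip_zero_left (by linarith)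
  have h4 : R2 z.re = 0 := clip_zero_left (by linarith)
  simp [V, h1, h2, h3, h4]

lemma V_zero_right {z : ℂ} (h : 2 ≤ z.re) : V z = 0 := by
  have h1 : L1 z.re = 0 := clip_zero_right (by linarith)
  have h2 : L2 z.re = 0 := clip_zero_right (by linarith)
  have h3 : R1 z.re = 0 := clip_zero_right (by linarith)
  have h4 : R2 z.re = 0 := clip_zero_right (by linarith)
  simp [V, h1, h2, h3, h4]

lemma V_zero_below {z : ℂ} (h : z.im ≤ -1) : V z = 0 := by
  have hW := W_pos
  have h1 : psi z.im = 0 := clip3_zero_left (by linarith)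
  have h2 : al z.im = 0 := clip3_zero_left (by linarith)
  have h3 : be z.im = 0 := clip3_zero_left (by linarith)
  simp [V, h1, h2, h3]

lemma V_zero_above {z : ℂ} (h : 2 * W + 1 ≤ z.im) : V z = 0 := by
  have hW := W_pos
  have h1 : psi z.im = 0 := clip3_zero_right (by linarith)
  have h2 : al z.im = 0 := clip3_zero_right (by linarith)
  have h3 : be z.im = 0 := clip3_zero_right (by linarith)
  simp [V, h1, h2, h3]

lemma V'_zero_left {z : ℂ} (h : z.re ≤ -2) : V' z = 0 := by
  have h1 : L1 z.re = 0 := clip_zero_left (by linarith)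
  have h4 : R2 z.re = 0 := clip_zero_left (by linarith)
  simp [V', h1, h4]

lemma V'_zero_right {z : ℂ} (h : 2 ≤ z.re) : V' z = 0 := by
  have h1 : L1 z.re = 0 := clip_zero_right (by linarith)
  have h4 : R2 z.re = 0 := clip_zero_right (by linarith)
  simp [V', h1, h4]

lemma V'_zero_below {z : ℂ} (h : z.im ≤ -(W + 1)) : V' z = 0 := by
  have h1 : psi' z.im = 0 := clip3_zero_left (by linarith)
  simp [V', h1]

lemma V'_zero_above {z : ℂ} (h : W + 1 ≤ z.im) : V' z = 0 := by
  have h1 : psi' z.im = 0 := clip3_zero_right (by linarith)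
  simp [V', h1]

lemma V_supp (z : ℂ) (hz : 2 + (2 * W + 1) < ‖z‖) : V z = 0 := by
  have hW := W_pos
  have h := Complex.norm_le_abs_re_add_abs_im z
  by_contra hne
  have h1 : |z.re| < 2 := by
    rw [abs_lt]
    constructor
    · by_contra h'; exact hne (V_zero_left (by linarith))
    · by_contra h'; exact hne (V_zero_right (by linarith))
  have h2 : |z.im| ≤ 2 * W + 1 := by
    rw [abs_le]
    constructor
    · by_contra h'; exact hne (V_zero_below (by linarith))
    · by_contra h'; exact hne (V_zero_above (by linarith))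
  linarith

lemma V'_supp (z : ℂ) (hz : 2 + (2 * W + 1) < ‖z‖) : V' z = 0 := by
  have hW := W_pos
  have h := Complex.norm_le_abs_re_add_abs_im z
  by_contra hne
  have h1 : |z.re| < 2 := by
    rw [abs_lt]
    constructor
    · by_contra h'; exact hne (V'_zero_left (by linarith))
    · by_contra h'; exact hne (V'_zero_right (by linarith))
  have h2 : |z.im| ≤ 2 * W + 1 := by
    rw [abs_le]
    constructor
    · by_contra h'; exact hne (V'_zero_below (by linarith))
    · by_contra h'; exact hne (V'_zero_above (by linarith))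
  linarith

lemma V_admissible : Admissible plates ![1, -1, 0] (ext0 V) := by
  have hW := W_pos
  refine ⟨ext0_continuous V_lip.continuous V_supp, V_lip.locallyLipschitz, ?_⟩
  intro k
  fin_cases k
  · rintro p ⟨z, ⟨hx, hy0, hy1⟩, rfl⟩
    have e1 : L1 z.re = 1 := by rw [hx]; norm_num [L1]
    have e2 : L2 z.re = 1 := by rw [hx]; norm_num [L2]
    have e3 : R1 z.re = 0 := by rw [hx]; exact clip_zero_left (by norm_num)
    have e4 : R2 z.re = 0 := by rw [hx]; exact clip_zero_left (by norm_num)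
    have e5 : psi z.im = 1 := clip3_one (by linarith) (by linarith)
    show V z = 1
    simp [V, e1, e2, e3, e4, e5]
  · rintro p ⟨z, ⟨hx, hy0, hy1⟩, rfl⟩
    have e1 : L1 z.re = 0 := by rw [hx]; exact clip_zero_right (by norm_num)
    have e2 : L2 z.re = 0 := by rw [hx]; exact clip_zero_right (by norm_num)
    have e3 : R1 z.re = 1 := by rw [hx]; norm_num [R1]
    have e4 : R2 z.re = 1 := by rw [hx]; norm_num [R2]
    have e5 : psi z.im = 1 := clip3_one (by linarith) (by linarith)
    show V z = -1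
    simp [V, e1, e2, e3, e4, e5]
  · intro p hp
    show ext0 V p = 0
    induction p using OnePoint.rec with
    | infty => rfl
    | coe z =>
      show V z = 0
      have hz : z ∉ D3 := fun h => hp ⟨z, h, rfl⟩
      by_cases hx1 : z.re ≤ -2
      · exact V_zero_left hx1
      by_cases hx2 : 2 ≤ z.re
      · exact V_zero_right hx2
      have hx : |z.re| < 2 := by rw [abs_lt]; constructor <;> linarith
      by_cases h0 : z.re = 0
      · have hy : ¬ (W < z.im ∧ z.im < 2 * W) := fun h =>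
          hz ⟨hx, fun _ => h, fun h' => by rw [h0] at h'; norm_num at h'⟩
        have e1 : L1 z.re = 0 := by rw [h0]; exact clip_zero_right (by norm_num)
        have e3 : R1 z.re = 0 := by rw [h0]; exact clip_zero_left (by norm_num)
        have e4 : R2 z.re = 0 := by rw [h0]; exact clip_zero_left (by norm_num)
        have e5 : be z.im = 0 := by
          by_cases h : z.im ≤ W
          · exact clip3_zero_left (by linarith)
          · exact clip3_zero_right (by
              by_contra h'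
              exact hy ⟨by linarith, by linarith⟩)
        simp [V, e1, e3, e4, e5]
      · by_cases h1 : z.re = 1 / 2
        · have hy : ¬ (0 < z.im ∧ z.im < W) := fun h =>
            hz ⟨hx, fun h' => absurd h' h0, fun _ => h⟩
          have e1 : L1 z.re = 0 := by rw [h1]; exact clip_zero_right (by norm_num)
          have e2 : L2 z.re = 0 := by rw [h1]; exact clip_zero_right (by norm_num)
          have e4 : R2 z.re = 0 := by rw [h1]; exact clip_zero_left (by norm_num)
          have e5 : al z.im = 0 := by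
            by_cases h : z.im ≤ 0
            · exact clip3_zero_left (by linarith)
            · exact clip3_zero_right (by
                by_contra h'
                exact hy ⟨by linarith, by linarith⟩)
          simp [V, e1, e2, e4, e5]
        · exact absurd ⟨hx, fun h' => absurd h' h0, fun h' => absurd h' h1⟩ hz

lemma V'_admissible : Admissible (steinerPlates plates) ![1, -1, 0] (ext0 V') := by
  have hW := W_pos
  refine ⟨ext0_continuous V'_lip.continuous V'_supp, V'_lip.locallyLipschitz, ?_⟩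
  rw [steinerPlates_plates]
  intro k
  fin_cases k
  · rintro p ⟨z, ⟨hx, hy⟩, rfl⟩
    rw [abs_le] at hy
    have e1 : L1 z.re = 1 := by rw [hx]; norm_num [L1]
    have e4 : R2 z.re = 0 := by rw [hx]; exact clip_zero_left (by norm_num)
    have e5 : psi' z.im = 1 := clip3_one (by linarith) (by linarith)
    show V' z = 1
    simp [V', e1, e4, e5]
  · rintro p ⟨z, ⟨hx, hy⟩, rfl⟩
    rw [abs_le] at hy
    have e1 : L1 z.re = 0 := by rw [hx]; exact clip_zero_right (by norm_num)
    have e4 : R2 z.re = 1 := by rw [hx]; norm_num [R2]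
    have e5 : psi' z.im = 1 := clip3_one (by linarith) (by linarith)
    show V' z = -1
    simp [V', e1, e4, e5]
  · intro p hp
    show ext0 V' p = 0
    induction p using OnePoint.rec with
    | infty => rfl
    | coe z =>
      show V' z = 0
      have hz : z ∉ G3 := fun h => hp ⟨z, h, rfl⟩
      by_cases hx1 : z.re ≤ -2
      · exact V'_zero_left hx1
      by_cases hx2 : 2 ≤ z.re
      · exact V'_zero_right hx2
      have hx : |z.re| < 2 := by rw [abs_lt]; constructor <;> linarith
      by_cases h0 : z.re = 0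
      · have e1 : L1 z.re = 0 := by rw [h0]; exact clip_zero_right (by norm_num)
        have e4 : R2 z.re = 0 := by rw [h0]; exact clip_zero_left (by norm_num)
        simp [V', e1, e4]
      · by_cases h1 : z.re = 1 / 2
        · have e1 : L1 z.re = 0 := by rw [h1]; exact clip_zero_right (by norm_num)
          have e4 : R2 z.re = 0 := by rw [h1]; exact clip_zero_left (by norm_num)
          simp [V', e1, e4]
        · exact absurd ⟨hx, fun h' => absurd h' h0, fun h' => absurd h' h1⟩ hz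


/-! ### Upper bound for the original condenser -/

/-- a rectangle together with a bound for the energy density on it:
`(c, a, b, p, q)` stands for the bound `c` on `(a,b) x (p,q)` -/
noncomputable def rects : Fin 8 → ℝ × ℝ × ℝ × ℝ × ℝ :=
  ![(196, -2, 2, -1, 1), (196, -2, 2, W - 1, W + 1), (196, -2, 2, 2 * W - 1, 2 * W + 1),
    (1, -2, 2, 1, W - 1),
    (1, -2, -1, W + 1, 2 * W - 1), (4 / 9, -1, 1 / 2, W + 1, 2 * W - 1),
    (4, 1 / 2, 1, W + 1, 2 * W - 1), (1, 1, 2, W + 1, 2 * W - 1)]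

/-- the associated step function -/
noncomputable def stepFn (r : ℝ × ℝ × ℝ × ℝ × ℝ) (z : ℂ) : ℝ≥0∞ :=
  (Ioo r.2.1 r.2.2.1 ×ℂ Ioo r.2.2.2.1 r.2.2.2.2).indicator (fun _ => ENNReal.ofReal r.1) z

lemma step_le (i : Fin 8) (z : ℂ) : stepFn (rects i) z ≤ ∑ j, stepFn (rects j) z :=
  Finset.single_le_sum (f := fun j => stepFn (rects j) z) (fun _ _ => zero_le)
    (Finset.mem_univ i)

lemma le_step {i : Fin 8} {z : ℂ} {d : ℝ}
    (hd : d ≤ (rects i).1)
    (h1 : (rects i).2.1 < z.re) (h2 : z.re < (rects i).2.2.1)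
    (h3 : (rects i).2.2.2.1 < z.im) (h4 : z.im < (rects i).2.2.2.2) :
    ENNReal.ofReal d ≤ ∑ j, stepFn (rects j) z := by
  refine le_trans ?_ (step_le i z)
  unfold stepFn
  rw [indicator_of_mem (by rw [Complex.mem_reProdIm]; exact ⟨⟨h1, h2⟩, ⟨h3, h4⟩⟩)]
  exact ENNReal.ofReal_le_ofReal hd

/-- if `F` agrees with an affine function of `re` on an open rectangle, its density is `s^2` there. -/
lemma dens_on_rect {F : ℂ → ℝ} {a b p q s c : ℝ} {z : ℂ}
    (h : ∀ w : ℂ, a < w.re → w.re < b → p < w.im → w.im < q → F w = s * w.re + c)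
    (h1 : a < z.re) (h2 : z.re < b) (h3 : p < z.im) (h4 : z.im < q) : dens F z = s ^ 2 := by
  apply dens_affine (c := c)
  have hm : (Ioo a b ×ℂ Ioo p q) ∈ 𝓝 z :=
    (isOpen_Ioo.reProdIm isOpen_Ioo).mem_nhds
      (by rw [Complex.mem_reProdIm]; exact ⟨⟨h1, h2⟩, ⟨h3, h4⟩⟩)
  filter_upwards [hm] with w hw
  rw [Complex.mem_reProdIm] at hw
  exact h w hw.1.1 hw.1.2 hw.2.1 hw.2.2

lemma dens_zero {F : ℂ → ℝ} {z : ℂ} (h : ∀ᶠ w in 𝓝 z, F w = 0) : dens F z = 0 := by
  have := dens_affine (F := F) (z := z) (s := 0) (c := 0) (by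
    filter_upwards [h] with w hw
    rw [hw]; ring)
  simpa using this

lemma psi_one {y : ℝ} (h0 : 0 ≤ y) (h1 : y ≤ 2 * W) : psi y = 1 :=
  clip3_one (by linarith) (by linarith)

lemma V_mid {w : ℂ} (h3 : 1 < w.im) (h4 : w.im < W - 1) : V w = L1 w.re - R1 w.re := by
  have hW := W_pos
  have e1 : psi w.im = 1 := psi_one (by linarith) (by linarith)
  have e2 : be w.im = 0 := clip3_zero_left (by linarith)
  have e3 : al w.im = 1 := clip3_one (by linarith) (by linarith)
  simp only [V, e1, e2, e3]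
  ring

lemma V_top {w : ℂ} (h3 : W + 1 < w.im) (h4 : w.im < 2 * W - 1) : V w = L2 w.re - R2 w.re := by
  have hW := W_pos
  have e1 : psi w.im = 1 := psi_one (by linarith) (by linarith)
  have e2 : be w.im = 1 := clip3_one (by linarith) (by linarith)
  have e3 : al w.im = 0 := clip3_zero_right (by linarith)
  simp only [V, e1, e2, e3]
  ring

lemma dens_V_le : ∀ᵐ z : ℂ, ENNReal.ofReal (dens V z) ≤ ∑ j, stepFn (rects j) z := by
  have hW : W = 100000 := rfl
  filter_upwards [ae_re_ne (-2), ae_re_ne (-1), ae_re_ne 0, ae_re_ne (1 / 2), ae_re_ne 1,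
    ae_re_ne 2, ae_im_ne (-1), ae_im_ne 1, ae_im_ne (W - 1), ae_im_ne (W + 1),
    ae_im_ne (2 * W - 1), ae_im_ne (2 * W + 1)]
    with z r1 r2 r3 r4 r5 r6 i1 i2 i3 i4 i5 i6
  have hglob : dens V z ≤ 196 := by
    have := dens_le_of_lipschitz V_lip z
    norm_num at this
    exact this
  -- outside the support
  rcases lt_or_gt_of_ne r1 with hr1 | hr1
  · rw [dens_zero, ENNReal.ofReal_zero]
    · exact zero_le
    · filter_upwards [(isOpen_lt Complex.continuous_re continuous_const).mem_nhds hr1] with w hw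
      exact V_zero_left (le_of_lt hw)
  rcases lt_or_gt_of_ne r6 with hr6 | hr6
  swap
  · rw [dens_zero, ENNReal.ofReal_zero]
    · exact zero_le
    · filter_upwards [(isOpen_lt continuous_const Complex.continuous_re).mem_nhds hr6] with w hw
      exact V_zero_right (le_of_lt hw)
  rcases lt_or_gt_of_ne i1 with hi1 | hi1
  · rw [dens_zero, ENNReal.ofReal_zero]
    · exact zero_le
    · filter_upwards [(isOpen_lt Complex.continuous_im continuous_const).mem_nhds hi1] with w hw
      exact V_zero_below (le_of_lt hw)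
  rcases lt_or_gt_of_ne i6 with hi6 | hi6
  swap
  · rw [dens_zero, ENNReal.ofReal_zero]
    · exact zero_le
    · filter_upwards [(isOpen_lt continuous_const Complex.continuous_im).mem_nhds hi6] with w hw
      exact V_zero_above (le_of_lt hw)
  -- transition layers
  rcases lt_or_gt_of_ne i2 with hi2 | hi2
  · exact le_step (i := 0) hglob hr1 hr6 hi1 hi2
  rcases lt_or_gt_of_ne i4 with hi4 | hi4
  · rcases lt_or_gt_of_ne i3 with hi3 | hi3
    · -- lower main part
      have key : dens V z ≤ 1 := by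
        rcases lt_or_gt_of_ne r2 with hr2 | hr2
        · rw [dens_on_rect (F := V) (a := -2) (b := -1) (p := 1) (q := W - 1) (s := 1) (c := 2)
            (fun w a1 a2 a3 a4 => ?_) hr1 hr2 hi2 hi3]
          · norm_num
          · rw [V_mid a3 a4]
            have e1 : L1 w.re = w.re + 2 := clip_left (by linarith) (by linarith)
            have e2 : R1 w.re = 0 := clip_zero_left (by linarith)
            rw [e1, e2]; ring
        rcases lt_or_gt_of_ne r5 with hr5 | hr5
        · rw [dens_on_rect (F := V) (a := -1) (b := 1) (p := 1) (q := W - 1) (s := -1) (c := 0)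
            (fun w a1 a2 a3 a4 => ?_) hr2 hr5 hi2 hi3]
          · norm_num
          · rw [V_mid a3 a4]
            rcases le_total w.re 0 with h | h
            · have e1 : L1 w.re = -w.re := clip_right (by linarith) (by linarith)
              have e2 : R1 w.re = 0 := clip_zero_left (by linarith)
              rw [e1, e2]; ring
            · have e1 : L1 w.re = 0 := clip_zero_right (by linarith)
              have e2 : R1 w.re = w.re := clip_left (by linarith) (by linarith)
              rw [e1, e2]; ring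
        · rw [dens_on_rect (F := V) (a := 1) (b := 2) (p := 1) (q := W - 1) (s := 1) (c := -2)
            (fun w a1 a2 a3 a4 => ?_) hr5 hr6 hi2 hi3]
          · norm_num
          · rw [V_mid a3 a4]
            have e1 : L1 w.re = 0 := clip_zero_right (by linarith)
            have e2 : R1 w.re = 2 - w.re := clip_right (by linarith) (by linarith)
            rw [e1, e2]; ring
      exact le_step (i := 3) key hr1 hr6 hi2 hi3
    · exact le_step (i := 1) hglob hr1 hr6 hi3 hi4
  rcases lt_or_gt_of_ne i5 with hi5 | hi5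
  swap
  · exact le_step (i := 2) hglob hr1 hr6 hi5 hi6
  -- upper main part
  rcases lt_or_gt_of_ne r2 with hr2 | hr2
  · refine le_step (i := 4) ?_ hr1 hr2 hi4 hi5
    rw [dens_on_rect (F := V) (a := -2) (b := -1) (p := W + 1) (q := 2 * W - 1) (s := 1) (c := 2)
      (fun w a1 a2 a3 a4 => ?_) hr1 hr2 hi4 hi5]
    · show (1 : ℝ) ^ 2 ≤ 1
      norm_num
    · rw [V_top a3 a4]
      have e1 : L2 w.re = w.re + 2 := clip_left (by linarith) (by linarith)
      have e2 : R2 w.re = 0 := clip_zero_left (by linarith)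
      rw [e1, e2]; ring
  rcases lt_or_gt_of_ne r4 with hr4 | hr4
  · refine le_step (i := 5) ?_ hr2 hr4 hi4 hi5
    rw [dens_on_rect (F := V) (a := -1) (b := 1 / 2) (p := W + 1) (q := 2 * W - 1) (s := -2 / 3)
      (c := 1 / 3) (fun w a1 a2 a3 a4 => ?_) hr2 hr4 hi4 hi5]
    · show (-2 / 3 : ℝ) ^ 2 ≤ 4 / 9
      norm_num
    · rw [V_top a3 a4]
      have e1 : L2 w.re = (1 - 2 * w.re) / 3 := clip_right (by linarith) (by linarith)
      have e2 : R2 w.re = 0 := clip_zero_left (by linarith)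
      rw [e1, e2]; ring
  rcases lt_or_gt_of_ne r5 with hr5 | hr5
  · refine le_step (i := 6) ?_ hr4 hr5 hi4 hi5
    rw [dens_on_rect (F := V) (a := 1 / 2) (b := 1) (p := W + 1) (q := 2 * W - 1) (s := -2)
      (c := 1) (fun w a1 a2 a3 a4 => ?_) hr4 hr5 hi4 hi5]
    · show (-2 : ℝ) ^ 2 ≤ 4
      norm_num
    · rw [V_top a3 a4]
      have e1 : L2 w.re = 0 := clip_zero_right (by linarith)
      have e2 : R2 w.re = 2 * w.re - 1 := clip_left (by linarith) (by linarith)
      rw [e1, e2]; ring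
  · refine le_step (i := 7) ?_ hr5 hr6 hi4 hi5
    rw [dens_on_rect (F := V) (a := 1) (b := 2) (p := W + 1) (q := 2 * W - 1) (s := 1)
      (c := -2) (fun w a1 a2 a3 a4 => ?_) hr5 hr6 hi4 hi5]
    · show (1 : ℝ) ^ 2 ≤ 1
      norm_num
    · rw [V_top a3 a4]
      have e1 : L2 w.re = 0 := clip_zero_right (by linarith)
      have e2 : R2 w.re = 2 - w.re := clip_right (by linarith) (by linarith)
      rw [e1, e2]; ring

lemma lintegral_stepFn {r : ℝ × ℝ × ℝ × ℝ × ℝ} (hc : 0 ≤ r.1) (hab : r.2.1 ≤ r.2.2.1) :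
    ∫⁻ z : ℂ, stepFn r z =
      ENNReal.ofReal (r.1 * ((r.2.2.1 - r.2.1) * (r.2.2.2.2 - r.2.2.2.1))) :=
  lintegral_rect hc hab

lemma measurable_stepFn (r : ℝ × ℝ × ℝ × ℝ × ℝ) : Measurable (stepFn r) :=
  measurable_const.indicator (measurableSet_rect _ _ _ _)

lemma upper_bound : dirichlet (ext0 V) < ENNReal.ofReal (9 * W) := by
  have hW : W = 100000 := rfl
  have h1 : dirichlet (ext0 V) ≤ ∫⁻ z : ℂ, ∑ j, stepFn (rects j) z := lintegral_mono_ae dens_V_le
  refine lt_of_le_of_lt h1 ?_
  rw [lintegral_finsetSum _ (fun j _ => measurable_stepFn _)]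
  have h2 : ∀ j, ∫⁻ z : ℂ, stepFn (rects j) z = ENNReal.ofReal ((rects j).1 *
      (((rects j).2.2.1 - (rects j).2.1) * ((rects j).2.2.2.2 - (rects j).2.2.2.1))) := by
    intro j
    apply lintegral_stepFn
    · fin_cases j <;> norm_num [rects]
    · fin_cases j <;> norm_num [rects]
  rw [Finset.sum_congr rfl (fun j _ => h2 j)]
  rw [← ENNReal.ofReal_sum_of_nonneg]
  · rw [ENNReal.ofReal_lt_ofReal_iff (by rw [hW]; norm_num)]
    simp only [Fin.sum_univ_eight, rects, Matrix.cons_val, Matrix.cons_val_zero,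
      Matrix.cons_val_one, hW]
    norm_num
  · intro j _
    fin_cases j <;> simp [rects, hW] <;> norm_num

lemma finite_symm : dirichlet (ext0 V') < ⊤ := by
  have hW : W = 100000 := rfl
  set r : ℝ × ℝ × ℝ × ℝ × ℝ := (25, -2, 2, -(W + 1), W + 1) with hr
  have h : ∀ᵐ z : ℂ, ENNReal.ofReal (dens V' z) ≤ stepFn r z := by
    filter_upwards [ae_re_ne (-2), ae_re_ne 2, ae_im_ne (-(W + 1)), ae_im_ne (W + 1)]
      with z r1 r2 i1 i2
    rcases lt_or_gt_of_ne r1 with hr1 | hr1
    · rw [dens_zero, ENNReal.ofReal_zero]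
      · exact zero_le
      · filter_upwards [(isOpen_lt Complex.continuous_re continuous_const).mem_nhds hr1] with w hw
        exact V'_zero_left (le_of_lt hw)
    rcases lt_or_gt_of_ne r2 with hr2 | hr2
    swap
    · rw [dens_zero, ENNReal.ofReal_zero]
      · exact zero_le
      · filter_upwards [(isOpen_lt continuous_const Complex.continuous_re).mem_nhds hr2] with w hw
        exact V'_zero_right (le_of_lt hw)
    rcases lt_or_gt_of_ne i1 with hi1 | hi1
    · rw [dens_zero, ENNReal.ofReal_zero]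
      · exact zero_le
      · filter_upwards [(isOpen_lt Complex.continuous_im continuous_const).mem_nhds hi1] with w hw
        exact V'_zero_below (le_of_lt hw)
    rcases lt_or_gt_of_ne i2 with hi2 | hi2
    swap
    · rw [dens_zero, ENNReal.ofReal_zero]
      · exact zero_le
      · filter_upwards [(isOpen_lt continuous_const Complex.continuous_im).mem_nhds hi2] with w hw
        exact V'_zero_above (le_of_lt hw)
    unfold stepFn
    rw [indicator_of_mem (by rw [Complex.mem_reProdIm]; exact ⟨⟨hr1, hr2⟩, ⟨hi1, hi2⟩⟩)]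
    apply ENNReal.ofReal_le_ofReal
    have := dens_le_of_lipschitz V'_lip z
    norm_num at this
    exact this
  have h1 : dirichlet (ext0 V') ≤ ∫⁻ z : ℂ, stepFn r z := lintegral_mono_ae h
  refine lt_of_le_of_lt h1 ?_
  rw [lintegral_stepFn (by norm_num [hr]) (by norm_num [hr])]
  exact ENNReal.ofReal_lt_top

/-! ### Topology of the plates -/

lemma isClosed_P1 : IsClosed P1 := by
  have : P1 = {z : ℂ | z.re = -1} ∩ ({z : ℂ | 0 ≤ z.im} ∩ {z : ℂ | z.im ≤ 2 * W}) := by
    ext z; simp [P1]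
  rw [this]
  exact (isClosed_eq Complex.continuous_re continuous_const).inter
    ((isClosed_le continuous_const Complex.continuous_im).inter
      (isClosed_le Complex.continuous_im continuous_const))

lemma isClosed_P2 : IsClosed P2 := by
  have : P2 = {z : ℂ | z.re = 1} ∩ ({z : ℂ | 0 ≤ z.im} ∩ {z : ℂ | z.im ≤ 2 * W}) := by
    ext z; simp [P2]
  rw [this]
  exact (isClosed_eq Complex.continuous_re continuous_const).inter
    ((isClosed_le continuous_const Complex.continuous_im).inter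
      (isClosed_le Complex.continuous_im continuous_const))

lemma isClosed_Q1 : IsClosed Q1 := by
  have : Q1 = {z : ℂ | z.re = -1} ∩ {z : ℂ | |z.im| ≤ W} := by
    ext z; simp [Q1]
  rw [this]
  exact (isClosed_eq Complex.continuous_re continuous_const).inter
    (isClosed_le Complex.continuous_im.abs continuous_const)

lemma isClosed_Q2 : IsClosed Q2 := by
  have : Q2 = {z : ℂ | z.re = 1} ∩ {z : ℂ | |z.im| ≤ W} := by
    ext z; simp [Q2]
  rw [this]
  exact (isClosed_eq Complex.continuous_re continuous_const).inter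
    (isClosed_le Complex.continuous_im.abs continuous_const)

lemma compact_of {S : Set ℂ} (hS : IsClosed S) {R : ℝ} (hR : ∀ z ∈ S, ‖z‖ ≤ R) : IsCompact S :=
  Metric.isCompact_of_isClosed_isBounded hS
    ((Metric.isBounded_closedBall (x := (0 : ℂ)) (r := R)).subset
      (fun z hz => by simpa using hR z hz))

lemma closed_image {S : Set ℂ} (hS : IsClosed S) {R : ℝ} (hR : ∀ z ∈ S, ‖z‖ ≤ R) :
    IsClosed (OnePoint.some '' S : Set (OnePoint ℂ)) :=
  OnePoint.isClosed_image_coe.mpr ⟨hS, compact_of hS hR⟩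

lemma norm_bd {z : ℂ} {a b : ℝ} (h1 : |z.re| ≤ a) (h2 : |z.im| ≤ b) : ‖z‖ ≤ a + b :=
  (Complex.norm_le_abs_re_add_abs_im z).trans (add_le_add h1 h2)

lemma isOpen_cond (a : ℝ) {S : Set ℂ} (hS : IsOpen S) :
    IsOpen {z : ℂ | z.re = a → z ∈ S} := by
  have : {z : ℂ | z.re = a → z ∈ S} = {z : ℂ | z.re ≠ a} ∪ S := by
    ext z
    by_cases h : z.re = a <;> simp [h]
  rw [this]
  exact (isOpen_ne_fun Complex.continuous_re continuous_const).union hS

lemma isOpen_D3 : IsOpen D3 := by
  have : D3 = {z : ℂ | |z.re| < 2} ∩ ({z : ℂ | z.re = 0 → z ∈ {z : ℂ | W < z.im} ∩ {z : ℂ | z.im < 2 * W}} ∩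
      {z : ℂ | z.re = 1 / 2 → z ∈ {z : ℂ | 0 < z.im} ∩ {z : ℂ | z.im < W}}) := by
    ext z; simp [D3]
  rw [this]
  refine (isOpen_lt Complex.continuous_re.abs continuous_const).inter
    ((isOpen_cond 0 ?_).inter (isOpen_cond (1 / 2) ?_))
  · exact (isOpen_lt continuous_const Complex.continuous_im).inter
      (isOpen_lt Complex.continuous_im continuous_const)
  · exact (isOpen_lt continuous_const Complex.continuous_im).inter
      (isOpen_lt Complex.continuous_im continuous_const)

lemma isOpen_G3 : IsOpen G3 := by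
  have : G3 = {z : ℂ | |z.re| < 2} ∩ ({z : ℂ | z.re = 0 → z ∈ {z : ℂ | 2 * |z.im| < W}} ∩
      {z : ℂ | z.re = 1 / 2 → z ∈ {z : ℂ | 2 * |z.im| < W}}) := by
    ext z; simp [G3]
  rw [this]
  refine (isOpen_lt Complex.continuous_re.abs continuous_const).inter
    ((isOpen_cond 0 ?_).inter (isOpen_cond (1 / 2) ?_))
  · exact isOpen_lt (continuous_const.mul Complex.continuous_im.abs) continuous_const
  · exact isOpen_lt (continuous_const.mul Complex.continuous_im.abs) continuous_const

lemma plates_closed (k : Fin 3) : IsClosed (plates k) := by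
  have hW := W_pos
  fin_cases k
  · refine closed_image isClosed_P1 (R := 1 + 2 * W) (fun z hz => norm_bd ?_ ?_)
    · rw [hz.1]; norm_num
    · rw [abs_of_nonneg hz.2.1]; exact hz.2.2
  · refine closed_image isClosed_P2 (R := 1 + 2 * W) (fun z hz => norm_bd ?_ ?_)
    · rw [hz.1]; norm_num
    · rw [abs_of_nonneg hz.2.1]; exact hz.2.2
  · exact (OnePoint.isOpen_image_coe.mpr isOpen_D3).isClosed_compl

lemma steinerPlates_closed (k : Fin 3) : IsClosed (steinerPlates plates k) := by
  have hW := W_pos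
  rw [steinerPlates_plates]
  fin_cases k
  · refine closed_image isClosed_Q1 (R := 1 + W) (fun z hz => norm_bd ?_ hz.2)
    rw [hz.1]; norm_num
  · refine closed_image isClosed_Q2 (R := 1 + W) (fun z hz => norm_bd ?_ hz.2)
    rw [hz.1]; norm_num
  · exact (OnePoint.isOpen_image_coe.mpr isOpen_G3).isClosed_compl

lemma disj_12 {S T : Set ℂ} (h : ∀ z ∈ S, z ∉ T) :
    Disjoint (OnePoint.some '' S : Set (OnePoint ℂ)) (OnePoint.some '' T) := by
  rw [Set.disjoint_left]
  rintro p ⟨z, hz, rfl⟩ ⟨w, hw, he⟩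
  rw [OnePoint.coe_injective he] at hw
  exact h z hz hw

lemma disj_compl {S T : Set ℂ} (h : ∀ z ∈ S, z ∈ T) :
    Disjoint (OnePoint.some '' S : Set (OnePoint ℂ)) (OnePoint.some '' T)ᶜ := by
  rw [Set.disjoint_left]
  rintro p ⟨z, hz, rfl⟩ hn
  exact hn ⟨z, h z hz, rfl⟩

lemma pairwise3 {E : Fin 3 → Set (OnePoint ℂ)} (h1 : Disjoint (E 0) (E 1))
    (h2 : Disjoint (E 0) (E 2)) (h3 : Disjoint (E 1) (E 2)) :
    Pairwise (Function.onFun Disjoint E) := by
  intro i j hij
  fin_cases i <;> fin_cases j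
  · exact absurd rfl hij
  · exact h1
  · exact h2
  · exact h1.symm
  · exact absurd rfl hij
  · exact h3
  · exact h2.symm
  · exact h3.symm
  · exact absurd rfl hij

lemma plates_disjoint : Pairwise (Function.onFun Disjoint plates) := by
  apply pairwise3
  · exact disj_12 (fun z hz h => by have := hz.1.symm.trans h.1; norm_num at this)
  · refine disj_compl (fun z hz => ⟨?_, fun h => ?_, fun h => ?_⟩)
    · rw [hz.1]; norm_num
    · rw [hz.1] at h; norm_num at h
    · rw [hz.1] at h; norm_num at h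
  · refine disj_compl (fun z hz => ⟨?_, fun h => ?_, fun h => ?_⟩)
    · rw [hz.1]; norm_num
    · rw [hz.1] at h; norm_num at h
    · rw [hz.1] at h; norm_num at h

lemma steinerPlates_disjoint : Pairwise (Function.onFun Disjoint (steinerPlates plates)) := by
  rw [steinerPlates_plates]
  apply pairwise3
  · exact disj_12 (fun z hz h => by have := hz.1.symm.trans h.1; norm_num at this)
  · refine disj_compl (fun z hz => ⟨?_, fun h => ?_, fun h => ?_⟩)
    · rw [hz.1]; norm_num
    · rw [hz.1] at h; norm_num at h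
    · rw [hz.1] at h; norm_num at h
  · refine disj_compl (fun z hz => ⟨?_, fun h => ?_, fun h => ?_⟩)
    · rw [hz.1]; norm_num
    · rw [hz.1] at h; norm_num at h
    · rw [hz.1] at h; norm_num at h

lemma mirror_plates : plates 1 = mirror (plates 0) := by
  ext p
  constructor
  · rintro ⟨z, ⟨h1, h2, h3⟩, rfl⟩
    refine ⟨z, rfl, -(starRingEnd ℂ) z, ⟨?_, ?_, ?_⟩, rfl⟩
    · simp [h1]
    · simpa using h2
    · simpa using h3
  · rintro ⟨z, rfl, w, ⟨h1, h2, h3⟩, he⟩
    have he' : w = -(starRingEnd ℂ) z := OnePoint.coe_injective he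
    rw [he'] at h1 h2 h3
    refine ⟨z, ⟨?_, ?_, ?_⟩, rfl⟩
    · simp at h1; linarith
    · simpa using h2
    · simpa using h3

lemma capacity_le {n : ℕ} {E : Fin n → Set (OnePoint ℂ)} {δ : Fin n → ℝ} {v : OnePoint ℂ → ℝ}
    (hv : Admissible E δ v) : capacity E δ ≤ dirichlet v :=
  iInf_le (fun v : {v : OnePoint ℂ → ℝ // Admissible E δ v} => dirichlet v.1) ⟨v, hv⟩

lemma le_capacity {n : ℕ} {E : Fin n → Set (OnePoint ℂ)} {δ : Fin n → ℝ} {c : ℝ≥0∞}
    (h : ∀ v, Admissible E δ v → c ≤ dirichlet v) : c ≤ capacity E δ :=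
  le_iInf (fun v => h v.1 v.2)

/-- There is a three-plate condenser `C` with closed pairwise disjoint plates `E 0`, `E 1`, `E 2`
(potentials `1`, `-1`, `0`), with `E 0` contained in the open left half plane and `E 1` the mirror
image of `E 0` in the imaginary axis, such that the plates of `St C` are closed and pairwise
disjoint and `cap C < cap (St C) < ∞`.  So the inequality `cap C ≥ cap (St C)` fails in general when
the third plate is not assumed to be symmetric in the imaginary axis. -/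
theorem main :
    ∃ E : Fin 3 → Set (OnePoint ℂ),
      (∀ k, IsClosed (E k)) ∧ Pairwise (Function.onFun Disjoint E) ∧
      (∀ p ∈ E 0, ∃ z : ℂ, p = (z : OnePoint ℂ) ∧ z.re < 0) ∧
      E 1 = mirror (E 0) ∧
      (∀ k, IsClosed (steinerPlates E k)) ∧
      Pairwise (Function.onFun Disjoint (steinerPlates E)) ∧
      capacity E ![1, -1, 0] < capacity (steinerPlates E) ![1, -1, 0] ∧
      capacity (steinerPlates E) ![1, -1, 0] < ⊤ := by
  refine ⟨plates, plates_closed, plates_disjoint, ?_, mirror_plates, steinerPlates_closed,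
    steinerPlates_disjoint, ?_, ?_⟩
  · rintro p ⟨z, hz, rfl⟩
    exact ⟨z, rfl, by rw [hz.1]; norm_num⟩
  · exact lt_of_le_of_lt (capacity_le V_admissible)
      (lt_of_lt_of_le upper_bound (le_capacity lower_bound))
  · exact lt_of_le_of_lt (capacity_le V'_admissible) finite_symm


end Pool.Agent.Lib.MP_da2747_an
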